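import Pool.Agent.D0H3.ZPM.Main
import Pool.Agent.D0H3.ZPM.Defs

/-!
# MP_130685_nt: Zilber-Pink for all but `C (log X)^a` of the rational members of height at most `X` of
one-parameter families with `m + 3` degenerate members

The Shimura variety `Y(1)^n` is identified with `ℂ^n` by the elliptic modular function
`jj = j = E₄³ / Δ`.

**Families.** As in the starting file `IntegralParameters`, we consider algebraic families `X_t` of subsets
of `Y(1)^n` with one parameter `t`, over a countable field `K ⊂ ℂ` (`Family`), given by
* a family `B_t ⊆ P^N` of projective algebraic sets, defined by forms `G k` with coefficients in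
  `K[t]`,
* quotients `f_i = A_i / B_i` of forms of the same degree `δ_i` with coefficients in `K[t]`,
* functions `s_i` integral over `K[j]`, `R_i (s_i, j) = 0` with `R_i` monic in the first variable
  (level one: `R_i = S - J`, `s_i = j`; in general modular functions of any level without poles
  in the upper half plane), and polynomials `c_i ∈ K[t]`:
`X_t = {x | ∃ y ∈ B_t, ∃ s, ∀ i, R_i (s_i, x_i) = 0, c_i (t) s_i = A_i (y) / B_i (y)}`
(`Family.member`), the image of a family of subvarieties of a product of modular curves of any
levels.

Let `P_1, …, P_M ∈ ℤ[t]` be nonconstant polynomials. The family degenerates at the roots of the `P_l`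
in the following sense: for all complex roots `α` of `P_l`
* no point of `B_α` lies on `m + 1` of the divisors of the `f_i` (at `t = α`), and
* the `c_i` have zeros at `α`, of orders `e_i (α) > 0`, and these orders are independent modulo
  squares at any `L + 1` roots of different polynomials (`IndependentOrders`), for instance different
  primes larger than the degrees of the `R_i`.

The Zilber-Pink statement for `X_t` (`Family.Good`): for all special subvarieties `Z` of `Y(1)^n` every
irreducible closed subset of `X_t ∩ Z` has dimension at most `dim Z + m - n + m / L`, and the same bound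
holds for the transcendence degrees of the points of `X_t ∩ Z` over `K`; if `L > m` the same with the
bound `dim Z + m - n`, that is, `X_t` has no atypical intersection with special subvarieties (and for
`m = 1`, `L = 2`, families of curves, no point at all on special subvarieties of codimension at least
two). The constant coordinates of `Z` can be special points or integral over the ring generated by any
given finite set `Γ` of numbers algebraic over `K`.

**Theorem.** Suppose that any `M - L` of the polynomials `P_l` have together at least two different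
complex roots: for instance `M ≥ L + 2` and the `P_l` have no common roots, or `M ≥ L + 1` and every
`P_l` has two different roots. Then there are `C` and `a` such that for all `X ≥ 2` the Zilber-Pink
statement holds for `X_t` for all but at most `C (log X)^a` of the rational numbers `t` of height at most
`X` (there are about `X²` of them).

With `L = m + 1` this needs `m + 3` rational degenerate members (four for families of curves), for
all `n`, or `m + 2` pairs of conjugate quadratic ones. The known results with finitely many exceptional
rational parameters need one rational degenerate member more: with `M = L + 2` rational degenerate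
parameters there are in general infinitely many `t` which are near to at most `L` of them at
the large primes, since for rational `α ≠ β` the number `(t - α) / (t - β)` can be any `S`-unit. The
starting file `IntegralParameters` has, with one polynomial less, the bound `C (log X)^a` for the rational
numbers with a given denominator, so that its bound for all rational numbers of height at most `X`
is `C X (log X)^a`.

*Proof.* By the local criterion (`D0H3/ZPM/Crit`, after the starting files) `X_t` is good if a prime
above a bound `D` divides the numerator of `P_l (t)`, for `L + 1` different `l`. If not, then the product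
`P` of `M - L` of the `P_l` has no prime factors above `D` at `t`. After a scaling of `t` let
`f ∈ ℤ[t]` be a monic squarefree polynomial of degree `d ≥ 2` which divides `P`, up to a constant. The
values `m = v^d f (u / v)` without prime factors above `D` are at most `C (log X)^(D + 1)` numbers. Let `m`,
the residues of `u` and `v` modulo a fixed number, the root `α` of `f` next to `t = u / v`, and the
number of binary digits of `v` be fixed. By a version of Hensel's lemma `m` divides a bounded multiple of
all the determinants `u v' - u' v` (`D0H3/ZPM/Pair`), so that the distances of different such `t` are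
`≫ |m| / v²`, whereas all of them are in the interval `|t - α| ≪ |m| / v^d`; so there are boundedly many
of them (`D0H3/ZPM/Sep`). This is a lattice argument, no Diophantine approximation is used.
-/

set_option autoImplicit false

namespace Pool.Agent.Results.MP_130685_nt.FewRationalMembers

open Pool.Agent.D0H3.ZPM
open Pool.Agent.Y83.ZPI (Bad)

/-- **Zilber-Pink for all but very few of the rational members of a family.** -/
theorem result (K : Subfield ℂ) (hK : Countable K) (n m L : ℕ) (F : Family K n m L)
    (hF : F.HasRoots 2) (Γ : Finset ℂ) (hΓ : ∀ γ ∈ Γ, IsAlgebraic K γ) :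
    ∃ C : ℝ, ∃ a : ℕ, ∀ X : ℕ, 2 ≤ X →
      ({t : ℚ | t.den ≤ X ∧ |t.num| ≤ (X : ℤ) ∧ ¬ F.Good Γ t}.ncard : ℝ) ≤ C * Real.log X ^ a := by
  classical
  have hfin := F.finite
  obtain ⟨D, hD⟩ := exists_bad K F.κ F.N n m F.M L F.T F.G F.homG F.A F.B F.δ F.homA F.homB F.R
    F.monic F.bound F.c F.P F.nonconst F.orders F.position Γ hΓ
  have hP0 : ∀ l, F.P l ≠ 0 := by
    intro l h
    have := F.nonconst l
    rw [h, Polynomial.natDegree_zero] at this
    exact lt_irrefl _ this
  let J : Finset (Finset (Fin F.M)) :=
    Finset.univ.filter fun I : Finset (Fin F.M) => F.M ≤ I.card + L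
  have hq : ∀ I ∈ J, ∃ C : ℝ, 0 ≤ C ∧ ∃ a : ℕ, ∀ X : ℕ, 2 ≤ X →
      ({t : ℚ | (t.den ≤ X ∧ |t.num| ≤ (X : ℤ)) ∧ Bad D (∏ l ∈ I, F.P l) t}.ncard : ℝ) ≤
        C * Real.log X ^ a := by
    intro I hI
    have hIM : F.M ≤ I.card + L := (Finset.mem_filter.1 hI).2
    have hcard : 2 ≤ (rts (∏ l ∈ I, F.P l)).ncard := by
      rw [rts_prod]
      exact hF I hIM
    have hQ0 : ∏ l ∈ I, F.P l ≠ 0 := Finset.prod_ne_zero_iff.2 fun l _ => hP0 l
    refine quant_two D _ ?_ hcard
    rw [Nat.pos_iff_ne_zero]
    intro h0
    obtain ⟨z, hz⟩ := Polynomial.natDegree_eq_zero.1 h0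
    have h1 : (rts (∏ l ∈ I, F.P l)).Nonempty := by
      rw [Set.nonempty_iff_ne_empty]
      intro h2
      rw [h2, Set.ncard_empty] at hcard
      omega
    obtain ⟨α, hα⟩ := h1
    rw [rts, Set.mem_ofPred_eq, ← hz, Polynomial.aeval_C] at hα
    apply hQ0
    rw [← hz]
    have h2 : z = 0 := by simpa using hα
    rw [h2, Polynomial.C_0]
  choose! C hC a ha using hq
  have hl2 : 0 < Real.log 2 := Real.log_pos (by norm_num)
  let b := ∑ I ∈ J, a I
  refine ⟨∑ I ∈ J, C I / Real.log 2 ^ (b - a I), b, fun X hX => ?_⟩
  have hXr : (2 : ℝ) ≤ X := by exact_mod_cast hX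
  have hlX : Real.log 2 ≤ Real.log X := Real.log_le_log (by norm_num) hXr
  have hfinI : ∀ I, {t : ℚ | (t.den ≤ X ∧ |t.num| ≤ (X : ℤ)) ∧ Bad D (∏ l ∈ I, F.P l) t}.Finite :=
    fun I => (finite_height X).subset fun t ht => ht.1
  have hsub : {t : ℚ | t.den ≤ X ∧ |t.num| ≤ (X : ℤ) ∧ ¬ F.Good Γ t} ⊆
      ((J.biUnion fun I => (hfinI I).toFinset : Finset ℚ) : Set ℚ) := by
    rintro t ⟨h1, h2, h3⟩
    obtain ⟨I, hI, hbad⟩ := hD t h3
    rw [Finset.mem_coe, Finset.mem_biUnion]
    exact ⟨I, Finset.mem_filter.2 ⟨Finset.mem_univ _, hI⟩,
      (Set.Finite.mem_toFinset _).2 ⟨⟨h1, h2⟩, hbad⟩⟩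
  have h1 : ({t : ℚ | t.den ≤ X ∧ |t.num| ≤ (X : ℤ) ∧ ¬ F.Good Γ t}.ncard : ℝ) ≤
      ∑ I ∈ J, ({t : ℚ | (t.den ≤ X ∧ |t.num| ≤ (X : ℤ)) ∧
        Bad D (∏ l ∈ I, F.P l) t}.ncard : ℝ) := by
    have h2 : {t : ℚ | t.den ≤ X ∧ |t.num| ≤ (X : ℤ) ∧ ¬ F.Good Γ t}.ncard ≤
        ∑ I ∈ J, {t : ℚ | (t.den ≤ X ∧ |t.num| ≤ (X : ℤ)) ∧
          Bad D (∏ l ∈ I, F.P l) t}.ncard := by
      refine (Set.ncard_le_ncard hsub (Finset.finite_toSet _)).trans ?_
      rw [Set.ncard_coe_finset]
      refine Finset.card_biUnion_le.trans (Finset.sum_le_sum fun I _ => ?_)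
      rw [Set.ncard_eq_toFinset_card _ (hfinI I)]
    exact_mod_cast h2
  refine h1.trans ?_
  rw [Finset.sum_mul]
  refine Finset.sum_le_sum fun I hI => (ha I hI X hX).trans ?_
  have hal : a I ≤ b := Finset.single_le_sum (f := a) (fun _ _ => Nat.zero_le _) hI
  have h2 : Real.log X ^ b = Real.log X ^ a I * Real.log X ^ (b - a I) := by
    rw [← pow_add]
    congr 1
    omega
  rw [h2, div_mul_eq_mul_div, le_div_iff₀ (by positivity)]
  have h3 : Real.log 2 ^ (b - a I) ≤ Real.log X ^ (b - a I) := pow_le_pow_left₀ hl2.le hlX _
  have h4 : 0 ≤ Real.log X ^ a I := pow_nonneg (hl2.le.trans hlX) _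
  calc C I * Real.log X ^ a I * Real.log 2 ^ (b - a I)
      ≤ C I * Real.log X ^ a I * Real.log X ^ (b - a I) := by
        have := hC I hI
        gcongr
    _ = C I * (Real.log X ^ a I * Real.log X ^ (b - a I)) := by ring

end Pool.Agent.Results.MP_130685_nt.FewRationalMembers
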