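import Pool.Agent.D0H54.PV.One
import Pool.Agent.D0H54.PV.RatC

/-!
# MP_130685_nt: Zilber-Pink for the members of all families over `K` at the iterated values of multiplicative functions

The Shimura variety `Y(1)^n` is identified with `ℂ^n` by the elliptic modular function `jj = j = E₄³ / Δ`. The problem is
the case `k = 0` of the following theorem on `Y(1)^n × G_m^k`.

**Families.** As in the starting file `TropicalFewExceptions`: `K ⊂ ℂ` is a countable field and `P` an arbitrary finite
system of polynomials with coefficients in `K[t]`, in `n` modular coordinates, `k` torus coordinates and `N` auxiliary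
coordinates. The member `X_t` (`member`) is the set of the points `x` of `Y(1)^n × G_m^k` for which there is a `y ∈ ℂ^N`
such that all polynomials of the system vanish at `(x, y)`, for the given `t`. The hypothesis `Generic` is the tropical
condition of that file: for every type of special subvarieties of dimension less than `n + k - m` there is a number `α` in
the finite set `D` of algebraic numbers such that the tropicalization of the system at `α` has no point compatible with
the type. For example the families of modular curves whose functions degenerate independently at few numbers `α`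
satisfy it (`MP_130685_nt.RationalParameters`, `IntegralParameters`).

`Atypical t` says that `X_t` has an atypical intersection with a product `Z × C` of a special subvariety `Z` of `Y(1)^n`
and a coset `C` of an algebraic subgroup of the torus: one of larger dimension than expected, or a point on `Z × C` of
larger transcendence degree over `K` than expected. The constant coordinates of `Z` can be special points or integral over
the ring `ℤ[Γ]`, and `C` can be a coset by a point whose coordinates are units over `ℤ[Γ]`, for instance a torsion coset.

**Iterated multiplicative functions.** `LM` is the class of the multiplicative functions `f : ℕ → ℕ` with positive values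
and polynomial growth which are injective at the large primes, with `f p ≤ M p` there: for example Euler's function `φ`,
the sum of divisors `σ`, Dedekind's function or the identity. `Comp` is the class of the compositions
`f_1 ∘ f_2 ∘ ... ∘ f_r` of functions of `LM`, such as the iterates `φ(φ(u))`, `σ(φ(σ(u)))`.

**Theorem.** Let `K` be a countable field and `F` a composition of functions of `LM`. There is one exceptional set `E` of
triples `(u, h, v)` (`u` a natural number, `h ∈ ℤ[x]`, `v` a natural number) such that

* for every `U` and all large `X`, for all `h` and `v` at most `X / (log X)^U` of the natural numbers `u ≤ X` satisfy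
  `E u h v`;
* for all families `P` over `K` (all `n`, `k`, `N`, `m`) with the condition `Generic`, all finite sets `Γ` of numbers
  algebraic over `K` and all integers `a`: for all large `u`, all `1 ≤ v ≤ u^a` and all nonconstant polynomials
  `h ∈ ℤ[x]` of degree at most `a` with coefficients at most `u^a` in absolute value, if `E u h v` does not hold then the
  member `X_t` at `t = h(F(u)) / v` has no atypical intersection.

So the exceptional `u` do not depend on the family, on `Γ` and on `a`, only the beginning `u₀` does, and their number is
bounded uniformly in `h` and `v`, whose height may be any power of `u`.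

A composition is not multiplicative, and nothing was known about its fibres, which are in general very large; the tool is
`D0H71/CM`: a set of integers with a power saving contains `F(u)` only for `X / (log X)^U` of the `u ≤ X`. The starting
results treat the parameters `t` themselves: in a sparse sequence of distinct integers almost all terms are good. For single
functions of `LM` the file `MultiplicativeParameters` has a much better bound for the number of the exceptional `u`, by
another method. The one exceptional set for all families is a diagonal union (`D0H54/PV/Diag`, `One`): there are only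
countably many families over `K`.
-/

set_option autoImplicit false

namespace Pool.Agent.Results.MP_130685_nt.IteratedParameters

open MvPolynomial Pool.Agent.R424.TG
open Pool.Agent.Y152.RP.FamM (NoAtypical)
open Pool.Agent.N733.TG (LM)
open Pool.Agent.D0H71.CM (Comp)

/-- The member `X_t` of the family has an atypical intersection. -/
def Atypical (K : Subfield ℂ) {κ : Type} {n k N : ℕ} (m : ℕ)
    (P : κ → MvPolynomial ((Fin n ⊕ Fin k) ⊕ Fin N) (Polynomial K)) (Γ : Finset ℂ) (t : ℂ) : Prop :=
  ¬ NoAtypical (algebraMap (Algebra.adjoin ℤ (Γ : Set ℂ)) ℂ) K m (member t P)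

/-- **Zilber-Pink at the values of compositions of multiplicative functions**, for all one-parameter families over `K` of
subvarieties of `Y(1)^n × G_m^k` with enough degenerate members, with one exceptional set for all families. -/
theorem result (K : Subfield ℂ) [Countable K] :
    (∀ F : ℕ → ℕ, Comp F → ∃ E : ℕ → Polynomial ℤ → ℕ → Prop,
      (∀ U : ℕ, ∃ X₀ : ℕ, ∀ X : ℕ, X₀ ≤ X → ∀ (h : Polynomial ℤ) (v : ℕ),
        ({u : ℕ | 1 ≤ u ∧ u ≤ X ∧ E u h v}.ncard : ℝ) ≤ X / Real.log X ^ U) ∧
      ∀ (r n k N m : ℕ) (P : Fin r → MvPolynomial ((Fin n ⊕ Fin k) ⊕ Fin N) (Polynomial K)) (D : Finset ℂ),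
        (∀ α ∈ D, IsAlgebraic ℚ α) → Generic m 1 P D → ∀ Γ : Finset ℂ, (∀ γ ∈ Γ, IsAlgebraic K γ) → ∀ a : ℕ,
        ∃ u₀ : ℕ, ∀ u : ℕ, u₀ ≤ u → ∀ v : ℕ, 1 ≤ v → v ≤ u ^ a → ∀ h : Polynomial ℤ,
          1 ≤ h.natDegree → h.natDegree ≤ a → (∀ i, |h.coeff i| ≤ (u : ℤ) ^ a) →
          ¬ E u h v → ¬ Atypical K m P Γ (((h.eval (F u : ℤ) : ℤ) : ℂ) / v)) ∧
    LM Nat.totient ∧ LM (fun u => ∑ d ∈ u.divisors, d) := by
  classical
  refine ⟨fun F hF => ?_, Pool.Agent.N733.TG.lm_totient, Pool.Agent.N733.TG.lm_sigma⟩
  obtain ⟨E, hE1, hE2⟩ := Pool.Agent.D0H54.PV.one_set K F Pool.Agent.D0H54.PV.βl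
    Pool.Agent.D0H54.PV.βl_nonneg Pool.Agent.D0H54.PV.βl_anti Pool.Agent.D0H54.PV.βl_step (by
      intro C s a j
      obtain ⟨N₀, hN₀⟩ := Pool.Agent.D0H54.PV.few_ratC (Pool.Agent.D0H71.CM.av_comp hF) C s a j
      refine ⟨N₀, fun N hN v hv hva h h1 h2 h3 Bad hBad => ?_⟩
      have key := hN₀ N hN v hv hva h h1 h2 h3 Bad hBad
      have hset : {u : ℕ | 1 ≤ u ∧ u ≤ N ∧ Bad (((h.eval (F u : ℤ) : ℤ) : ℚ) / v)} =
          (((Finset.Icc 1 N).filter (fun u => Bad (((h.eval (F u : ℤ) : ℤ) : ℚ) / v)) : Finset ℕ) : Set ℕ) := by
        ext u
        rw [Finset.mem_coe, Finset.mem_filter, Finset.mem_Icc, Set.mem_ofPred_eq, and_assoc]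
      rw [hset, Set.ncard_coe_finset]
      unfold Pool.Agent.D0H54.PV.βl
      convert key)
  refine ⟨E, fun U => ?_, ?_⟩
  · obtain ⟨X₂, hX₂⟩ := hE1 U
    refine ⟨X₂, fun X hX h v => ?_⟩
    have := hX₂ X hX h v
    unfold Pool.Agent.D0H54.PV.βl at this
    exact this
  · intro r n k N m P D hD hgen Γ hΓ a
    obtain ⟨u₀, hu₀⟩ := hE2 r n k N m P D hD hgen Γ hΓ a
    refine ⟨u₀, fun u hu v hv hva h h1 h2 h3 hE => ?_⟩
    exact hu₀ u hu h v ⟨hv, hva, h1, h2, h3⟩ hE

end Pool.Agent.Results.MP_130685_nt.IteratedParameters
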