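import Pool.Agent.D0H3.ZPM.Main
import Pool.Agent.D0H3.ZPM.Defs

/-!
# MP_130685_nt: Zilber-Pink for the rational parameters near to a real number, with one small set of
exceptional real numbers for all families

The Shimura variety `Y(1)^n` is identified with `ℂ^n` by the elliptic modular function
`jj = j = E₄³ / Δ`.

**Families.** Let `K ⊂ ℂ` be a countable field. As in the starting file `IntegralParameters`, we consider
algebraic families `X_t` of subsets of `Y(1)^n` with one parameter `t` (`Family`), given by
* a family `B_t ⊆ P^N` of projective algebraic sets, defined by forms `G k` with coefficients in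
  `K[t]`,
* quotients `f_i = A_i / B_i` of forms of the same degree `δ_i` with coefficients in `K[t]`,
* functions `s_i` integral over `K[j]`, `R_i (s_i, j) = 0` with `R_i` monic in the first variable
  (level one: `R_i = S - J`, `s_i = j`; in general modular functions of any level without poles
  in the upper half plane), and polynomials `c_i ∈ K[t]`:
`X_t = {x | ∃ y ∈ B_t, ∃ s, ∀ i, R_i (s_i, x_i) = 0, c_i (t) s_i = A_i (y) / B_i (y)}`
(`Family.member`), the image of a family of subvarieties of a product of modular curves of any
levels.

Let `P_1, …, P_M ∈ ℤ[t]` be nonconstant polynomials. The family degenerates at the roots of the `P_l`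
in the following sense: for all complex roots `α` of `P_l`
* no point of `B_α` lies on `m + 1` of the divisors of the `f_i` (at `t = α`), and
* the `c_i` have zeros at `α`, of orders `e_i (α) > 0`, and these orders are independent modulo
  squares at any `L + 1` roots of different polynomials (`IndependentOrders`), for instance different
  primes larger than the degrees of the `R_i`.

The Zilber-Pink statement for `X_t` (`Family.Good`): for all special subvarieties `Z` of `Y(1)^n` every
irreducible closed subset of `X_t ∩ Z` has dimension at most `dim Z + m - n + m / L`, and the same bound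
holds for the transcendence degrees of the points of `X_t ∩ Z` over `K`; if `L > m` the same with the
bound `dim Z + m - n`, that is, `X_t` has no atypical intersection with special subvarieties (and for
`m = 1`, `L = 2`, families of curves, no point at all on special subvarieties of codimension at least
two). The constant coordinates of `Z` can be special points or integral over the ring generated by any
given finite set `Γ` of numbers algebraic over `K`.

**Theorem.** Let `ω ≥ 1` and `τ > 0`, `τ > 2 - ω`. There is ONE set `E ⊂ ℝ`, of Hausdorff dimension at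
most `(2 - ω) / τ`, of measure zero, which contains no algebraic number, such that for all real numbers
`ξ` outside of `E`, for ALL countable fields `K` and ALL families (all `n`, `m`, `L`) such that any
`M - L` of the polynomials `P_l` have together at least `ω` different complex roots
(`Family.HasRoots`) and `P_l (ξ) ≠ 0`, and for all `C`: the Zilber-Pink statement holds for `X_t` for all
but finitely many rational numbers `t` with `|ξ - t| ≤ C den(t)^(-τ)`.

* For `ω = 1` the condition is `M ≥ L + 1`; the dimension of `E` is at most `1 / τ`, for any `τ > 1`.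
* For `ω = 2` the condition holds if `M ≥ L + 2` and the `P_l` have no common roots, for instance are
  different linear polynomials, or if `M ≥ L + 1` and every `P_l` has two different roots. The dimension
  of `E` is `0`, and `τ > 0` is arbitrary.

So `m + 2` degenerate members suffice for `ω = 1` and `m + 3` for `ω = 2` (`L = m + 1`), for all `n`. For
example, for `ξ = √2`, and for almost all `ξ`, the Zilber-Pink statement holds for all but finitely many
members with a rational parameter `t`, `|ξ - t| ≤ den(t)^(-τ)`, for each family with at least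
`m + 3` different rational degenerate parameters, and any `τ > 0`. For `τ ≤ 2` there are infinitely many
such `t` for every irrational `ξ`, and for `τ < 2` about `X^(2 - τ)` with denominators up to `X`. The
starting file `IntegralParameters` bounds, for one family, the number of the exceptional rational
numbers of a given denominator, and results with finitely many exceptional rational numbers
(`RationalParameters` of `MP_d83ecd_ag`) need more degenerate members; in these results nothing is
said about the exceptional parameters near to a given number. The starting file `MetricSequences` has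
exceptional sets of density zero along sequences of parameters.

*Proof.* By the local criterion (`D0H3/ZPM/Crit`, after the starting files) `X_t` is good if a prime
above a bound `D` divides the numerator of `P_l (t)`, for `L + 1` different `l`. If not, then the
product `P` of `M - L` of the `P_l` has no large prime factors at `t`. If `P` has two different roots,
the pairs `(u, v)`, `t = u / v`, near to `ξ` and of size `N` are primitive points of lattices of index
`≫ N²`, one of boundedly many for each of the few values of the form `v^d P (u / v)` without large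
prime factors, so that their number is at most a power of `log N`; in general it is at most a
power of `log N` for each `v`. The union over the countably many pairs `(P, D)` of the sets of the
real numbers with infinitely many such approximations has the Hausdorff dimension stated in the
theorem, and for algebraic `ξ` the finiteness follows from Ridout's theorem (library `Y670`), applied to
the product of `P` and the minimal polynomial of `ξ`.
-/

set_option autoImplicit false

namespace Pool.Agent.Results.MP_130685_nt.MetricApproximations

open Pool.Agent.D0H3.ZPM MeasureTheory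
open Pool.Agent.Y83.ZPI (Bad)

/-- The exceptional parameters of a family near to a real number outside of the exceptional set. -/
theorem finite_near {K : Subfield ℂ} {n m L : ℕ} (F : Family K n m L) (hK : Countable K)
    (Γ : Finset ℂ) (hΓ : ∀ γ ∈ Γ, IsAlgebraic K γ) {ω : ℕ} (hω : 1 ≤ ω) (hF : F.HasRoots ω)
    {ξ : ℝ} (hξ : ∀ l, Polynomial.aeval ξ (F.P l) ≠ 0) {τ : ℝ} (hτ0 : 0 < τ) (hτ : 2 - (ω : ℝ) < τ)
    (hE : ξ ∉ Exc ω τ) (C : ℝ) :
    {t : ℚ | |ξ - t| ≤ C * (t.den : ℝ) ^ (-τ) ∧ ¬ F.Good Γ t}.Finite := by
  classical
  have hfin := F.finite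
  obtain ⟨D, hD⟩ := exists_bad K F.κ F.N n m F.M L F.T F.G F.homG F.A F.B F.δ F.homA F.homB F.R
    F.monic F.bound F.c F.P F.nonconst F.orders F.position Γ hΓ
  have hP0 : ∀ l, F.P l ≠ 0 := by
    intro l h
    have := F.nonconst l
    rw [h, Polynomial.natDegree_zero] at this
    exact lt_irrefl _ this
  have hsub : {t : ℚ | |ξ - t| ≤ C * (t.den : ℝ) ^ (-τ) ∧ ¬ F.Good Γ t} ⊆
      ⋃ I ∈ (Finset.univ.filter fun I : Finset (Fin F.M) => F.M ≤ I.card + L),
        {t : ℚ | Bad D (∏ l ∈ I, F.P l) t ∧ |ξ - t| ≤ C * (t.den : ℝ) ^ (-τ)} := by
    rintro t ⟨h1, h2⟩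
    obtain ⟨I, hI, hbad⟩ := hD t h2
    simp only [Set.mem_iUnion]
    exact ⟨I, Finset.mem_filter.2 ⟨Finset.mem_univ _, hI⟩, hbad, h1⟩
  refine Set.Finite.subset (Set.Finite.biUnion (Finset.finite_toSet _) fun I hI => ?_) hsub
  have hIM : F.M ≤ I.card + L := (Finset.mem_filter.1 hI).2
  have hcard : ω ≤ (rts (∏ l ∈ I, F.P l)).ncard := by
    rw [rts_prod]
    exact hF I hIM
  have hQ0 : ∏ l ∈ I, F.P l ≠ 0 := Finset.prod_ne_zero_iff.2 fun l _ => hP0 l
  have hdeg : 0 < (∏ l ∈ I, F.P l).natDegree := by
    rw [Nat.pos_iff_ne_zero]
    intro h0
    obtain ⟨z, hz⟩ := Polynomial.natDegree_eq_zero.1 h0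
    have h1 : (rts (∏ l ∈ I, F.P l)).Nonempty := by
      rw [Set.nonempty_iff_ne_empty]
      intro h2
      rw [h2, Set.ncard_empty] at hcard
      omega
    obtain ⟨α, hα⟩ := h1
    rw [rts, Set.mem_ofPred_eq, ← hz, Polynomial.aeval_C] at hα
    apply hQ0
    rw [← hz]
    have h2 : z = 0 := by simpa using hα
    rw [h2, Polynomial.C_0]
  by_cases halg : IsAlgebraic ℚ ξ
  · refine alg_finite D _ hdeg halg ?_ hτ0 (lt_of_le_of_lt ?_ hτ) C
    · rw [map_prod]
      exact Finset.prod_ne_zero_iff.2 fun l _ => hξ l
    · have : (ω : ℝ) ≤ (rts (∏ l ∈ I, F.P l)).ncard := by exact_mod_cast hcard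
      linarith
  · by_contra hinf
    exact hE ⟨halg, D, _, hdeg, hcard, C, hinf⟩

theorem dim_exc {ω : ℕ} (hω : 1 ≤ ω) {τ : ℝ} (hτ : 0 < τ) :
    dimH (Exc ω τ) ≤ ENNReal.ofReal ((2 - (ω : ℝ)) / τ) := by
  rcases Nat.lt_or_ge ω 2 with h | h
  · have h1 : ω = 1 := by omega
    subst h1
    have h2 : (2 : ℝ) - ((1 : ℕ) : ℝ) = 1 := by norm_num
    rw [h2]
    exact dim_exc_one hτ
  · have h1 : Exc ω τ ⊆ Exc 2 τ := by
      rintro ξ ⟨h2, D, P, h3, h4, h5⟩
      exact ⟨h2, D, P, h3, h.trans h4, h5⟩
    exact (dimH_mono h1).trans ((dim_exc_two hτ).trans bot_le)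

/-- **Zilber-Pink for the rational parameters near to a real number**, with one exceptional set for all
families. -/
theorem result (ω : ℕ) (hω : 1 ≤ ω) (τ : ℝ) (hτ0 : 0 < τ) (hτ : 2 - (ω : ℝ) < τ) :
    ∃ E : Set ℝ, dimH E ≤ ENNReal.ofReal ((2 - (ω : ℝ)) / τ) ∧ volume E = 0 ∧
      (∀ ξ ∈ E, Transcendental ℚ ξ) ∧
      ∀ ξ ∉ E, ∀ (K : Subfield ℂ) (n m L : ℕ) (F : Family K n m L), Countable K → F.HasRoots ω →
        (∀ l, Polynomial.aeval ξ (F.P l) ≠ 0) →
        ∀ Γ : Finset ℂ, (∀ γ ∈ Γ, IsAlgebraic K γ) → ∀ C : ℝ,
          {t : ℚ | |ξ - t| ≤ C * (t.den : ℝ) ^ (-τ) ∧ ¬ F.Good Γ t}.Finite := by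
  refine ⟨Exc ω τ, dim_exc hω hτ0, ?_, fun ξ hξ => hξ.1, ?_⟩
  · have h1 : dimH (Exc ω τ) < ((1 : NNReal) : ENNReal) := by
      refine (dim_exc hω hτ0).trans_lt ?_
      rw [ENNReal.coe_one]
      refine ENNReal.ofReal_lt_one.2 ?_
      rw [div_lt_one hτ0]
      exact hτ
    refine measure_zero_of_dimH_lt ?_ h1
    rw [NNReal.coe_one, hausdorffMeasure_real]
  · intro ξ hξ K n m L F hK hF hroot Γ hΓ C
    exact finite_near F hK Γ hΓ hω hF hroot hτ0 hτ hξ C

end Pool.Agent.Results.MP_130685_nt.MetricApproximations
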