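import Pool.Agent.D0H54.PV.One
import Pool.Agent.N733.TG.I

/-!
# MP_130685_nt: Zilber-Pink for the members of all families over `K` at the values of multiplicative functions

The Shimura variety `Y(1)^n` is identified with `ℂ^n` by the elliptic modular function `jj = j = E₄³ / Δ`. The problem is
the case `k = 0` of the following theorem on `Y(1)^n × G_m^k`.

**Families.** As in the starting file `TropicalFewExceptions`: `K ⊂ ℂ` is a countable field and `P` an arbitrary finite
system of polynomials with coefficients in `K[t]`, in `n` modular coordinates, `k` torus coordinates and `N` auxiliary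
coordinates. The member `X_t` (`member`) is the set of the points `x` of `Y(1)^n × G_m^k` for which there is a `y ∈ ℂ^N`
such that all polynomials of the system vanish at `(x, y)`, for the given `t`. The hypothesis `Generic` is the tropical
condition of that file: for every type of special subvarieties of dimension less than `n + k - m` there is a number `α` in
the finite set `D` of algebraic numbers such that the tropicalization of the system at `α` has no point compatible with
the type. For example the families of modular curves whose functions degenerate independently at few numbers `α`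
satisfy it (`MP_130685_nt.RationalParameters`, `IntegralParameters`).

`Atypical t` says that `X_t` has an atypical intersection with a product `Z × C` of a special subvariety `Z` of `Y(1)^n`
and a coset `C` of an algebraic subgroup of the torus: one of larger dimension than expected, or a point on `Z × C` of
larger transcendence degree over `K` than expected. The constant coordinates of `Z` can be special points or integral over
the ring `ℤ[Γ]`, and `C` can be a coset by a point whose coordinates are units over `ℤ[Γ]`, for instance a torsion coset.

**Multiplicative functions.** `LM` is the class of the multiplicative functions `f : ℕ → ℕ` with positive values and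
polynomial growth which are injective at the large primes, with `f p ≤ M p` there: for example Euler's function `φ`, the
sum of divisors `σ` (proved in the theorem), Dedekind's function or the identity.

**Theorem.** Let `K` be a countable field and `f` a function of `LM`. There is one exceptional set `E` of triples `(u, h, v)`
(`u` a natural number, `h ∈ ℤ[x]`, `v` a natural number) such that

* for every `c < 1` and all large `X`, for all `h` and `v` at most `X exp (- c log X logloglog X / loglog X)` of the natural
  numbers `u ≤ X` satisfy `E u h v`;
* for all families `P` over `K` (all `n`, `k`, `N`, `m`) with the condition `Generic`, all finite sets `Γ` of numbers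
  algebraic over `K` and all integers `a`: for all large `u`, all `1 ≤ v ≤ u^a` and all nonconstant polynomials
  `h ∈ ℤ[x]` of degree at most `a` with coefficients at most `u^a` in absolute value, if `E u h v` does not hold then the
  member `X_t` at `t = h(f(u)) / v` has no atypical intersection.

So for almost all `u` the members at `t = ± φ(u)`, `t = σ(u) / v` or `t = σ(u)² + b` of all these families satisfy
Zilber-Pink in the strongest form, with no atypical intersections at all: the exceptional `u` do not depend on the family,
on `Γ` and on `a`, only the beginning `u₀` does, and their number is bounded uniformly in `h` and `v`, whose height may be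
any power of `u`. For one family and all `v ≤ X^a` and `h` of degree at most `a` with coefficients at most `X^a`, there are
therefore at most `X exp (- c log X logloglog X / loglog X)` numbers `u ≤ X` for which `X_t` has an atypical intersection.

The starting results treat the parameters `t` themselves: in a sparse sequence of distinct integers almost all terms are
good. But the values of `φ` and `σ` are extremely non-uniform: almost all `u` have values in a sparse set, and single values
are taken by `X^(1-o(1))` integers up to `X` (under standard conjectures). The bound is the size of the largest fibres of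
Euler's function which one expects (Pomerance: the fibres have at most `X exp (- (1 + o(1)) log X logloglog X / loglog X)`
elements, and it is conjectured that this is attained), so for one exceptional parameter `t` alone there can be so many
exceptional `u`.

The proof: the multiplicity of a value of a multiplicative function of the class is bounded by Rankin's method, with a
Dirichlet series over the integers `u` whose value divides `w` (`D0H54/PV`); the number of exceptional values `w` is
bounded by the number of divisors of `v` and the starting theorem, for each reduced denominator. The one exceptional set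
for all families is a diagonal union (`D0H54/PV/Diag`, `One`): there are only countably many families over `K`.
-/

set_option autoImplicit false

namespace Pool.Agent.Results.MP_130685_nt.MultiplicativeParameters

open MvPolynomial Pool.Agent.R424.TG
open Pool.Agent.Y152.RP.FamM (NoAtypical)
open Pool.Agent.N733.TG (LM)

/-- The member `X_t` of the family has an atypical intersection. -/
def Atypical (K : Subfield ℂ) {κ : Type} {n k N : ℕ} (m : ℕ)
    (P : κ → MvPolynomial ((Fin n ⊕ Fin k) ⊕ Fin N) (Polynomial K)) (Γ : Finset ℂ) (t : ℂ) : Prop :=
  ¬ NoAtypical (algebraMap (Algebra.adjoin ℤ (Γ : Set ℂ)) ℂ) K m (member t P)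

/-- **Zilber-Pink at the values of multiplicative functions**, for all one-parameter families over `K` of subvarieties of
`Y(1)^n × G_m^k` with enough degenerate members, with one exceptional set for all families. -/
theorem result (K : Subfield ℂ) [Countable K] :
    (∀ f : ℕ → ℕ, LM f → ∃ E : ℕ → Polynomial ℤ → ℕ → Prop,
      (∀ c : ℝ, c < 1 → ∃ X₀ : ℕ, ∀ X : ℕ, X₀ ≤ X → ∀ (h : Polynomial ℤ) (v : ℕ),
        ({u : ℕ | 1 ≤ u ∧ u ≤ X ∧ E u h v}.ncard : ℝ) ≤
          X * Real.exp (-(c * (Real.log X * Real.log (Real.log (Real.log X)) / Real.log (Real.log X))))) ∧
      ∀ (r n k N m : ℕ) (P : Fin r → MvPolynomial ((Fin n ⊕ Fin k) ⊕ Fin N) (Polynomial K)) (D : Finset ℂ),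
        (∀ α ∈ D, IsAlgebraic ℚ α) → Generic m 1 P D → ∀ Γ : Finset ℂ, (∀ γ ∈ Γ, IsAlgebraic K γ) → ∀ a : ℕ,
        ∃ u₀ : ℕ, ∀ u : ℕ, u₀ ≤ u → ∀ v : ℕ, 1 ≤ v → v ≤ u ^ a → ∀ h : Polynomial ℤ,
          1 ≤ h.natDegree → h.natDegree ≤ a → (∀ i, |h.coeff i| ≤ (u : ℤ) ^ a) →
          ¬ E u h v → ¬ Atypical K m P Γ (((h.eval (f u : ℤ) : ℤ) : ℂ) / v)) ∧
    LM Nat.totient ∧ LM (fun u => ∑ d ∈ u.divisors, d) := by
  classical
  refine ⟨fun f hf => ?_, Pool.Agent.N733.TG.lm_totient, Pool.Agent.N733.TG.lm_sigma⟩
  obtain ⟨E, hE1, hE2⟩ := Pool.Agent.D0H54.PV.one_set K f Pool.Agent.D0H54.PV.βr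
    Pool.Agent.D0H54.PV.βr_nonneg Pool.Agent.D0H54.PV.βr_anti Pool.Agent.D0H54.PV.βr_step (by
      intro C s a j
      have hc : 1 - 1 / ((j : ℝ) + 2) < 1 := by
        have : (0 : ℝ) < 1 / ((j : ℝ) + 2) := by positivity
        linarith
      obtain ⟨N₀, hN₀⟩ := Pool.Agent.D0H54.PV.few_rat hf hc C s a
      refine ⟨N₀, fun N hN v hv hva h h1 h2 h3 Bad hBad => ?_⟩
      have key := hN₀ N hN v hv hva h h1 h2 h3 Bad hBad
      have hset : {u : ℕ | 1 ≤ u ∧ u ≤ N ∧ Bad (((h.eval (f u : ℤ) : ℤ) : ℚ) / v)} =
          (((Finset.Icc 1 N).filter (fun u => Bad (((h.eval (f u : ℤ) : ℤ) : ℚ) / v)) : Finset ℕ) : Set ℕ) := by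
        ext u
        rw [Finset.mem_coe, Finset.mem_filter, Finset.mem_Icc, Set.mem_ofPred_eq, and_assoc]
      rw [hset, Set.ncard_coe_finset]
      unfold Pool.Agent.D0H54.PV.βr
      convert key)
  refine ⟨E, fun c hc => ?_, ?_⟩
  · obtain ⟨j, hj⟩ := Pool.Agent.D0H54.PV.βr_le hc
    obtain ⟨X₁, hX₁⟩ := Filter.eventually_atTop.1 hj
    obtain ⟨X₂, hX₂⟩ := hE1 j
    refine ⟨max X₁ X₂, fun X hX h v => (hX₂ X (le_trans (le_max_right _ _) hX) h v).trans ?_⟩
    have := hX₁ X (le_trans (le_max_left _ _) hX)
    unfold Pool.Agent.D0H54.PV.rate at this
    exact this
  · intro r n k N m P D hD hgen Γ hΓ a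
    obtain ⟨u₀, hu₀⟩ := hE2 r n k N m P D hD hgen Γ hΓ a
    refine ⟨u₀, fun u hu v hv hva h h1 h2 h3 hE => ?_⟩
    exact hu₀ u hu h v ⟨hv, hva, h1, h2, h3⟩ hE

end Pool.Agent.Results.MP_130685_nt.MultiplicativeParameters
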